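import Pool.Graph.R_pool_sql_team_seeded_2aa45f1a.Q184.DP.Final
import Pool.Graph.R_pool_sql_team_seeded_3dad9d7b.NH99.AL.All

set_option autoImplicit false

/-!
# The exponent `d / 2` in every box: moments of the discrepancy of boxes with a fixed corner
-/

namespace Pool.Agent.H553.BX

open Finset MeasureTheory Pool.Agent.H736R2.Lone
open Pool.Agent.Q184.DL
open Pool.Agent.Q184.DP
open Pool.Agent.TH973.SD (locD measurable_locD)

variable {d : ℕ}

/-- the loss factor `(1 + log log X)^A` -/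
noncomputable def QQ (A : ℕ) (X : ℝ) : ℝ := (1 + Real.log (Real.log X)) ^ A

theorem QQ_ge_one (A : ℕ) {X : ℝ} (hX : 16 ≤ X) : 1 ≤ QQ A X := by
  obtain ⟨h1, h2⟩ := log_facts hX
  unfold QQ
  exact one_le_pow₀ (by linarith)

/-- comparison of the loss factors -/
theorem QQ_comp (A : ℕ) (B : ℝ) (hB : 1 ≤ B) : ∃ C : ℝ, 1 ≤ C ∧ ∀ X Y : ℝ, 16 ≤ X → X ≤ Y →
    Y ≤ B * X → QQ A Y ≤ C * QQ A X := by
  have hlB : 0 ≤ Real.log B := Real.log_nonneg hB
  have hlB1 : 0 ≤ Real.log (1 + Real.log B) := Real.log_nonneg (by linarith)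
  refine ⟨(1 + Real.log (1 + Real.log B)) ^ A, one_le_pow₀ (by linarith), ?_⟩
  intro X Y hX hXY hYB
  obtain ⟨h1, h2⟩ := log_facts hX
  obtain ⟨h3, h4⟩ := log_facts (hX.trans hXY)
  have h5 : Real.log Y ≤ (1 + Real.log B) * Real.log X := by
    calc Real.log Y ≤ Real.log (B * X) := Real.log_le_log (by linarith) hYB
      _ = Real.log B + Real.log X := Real.log_mul (by linarith) (by linarith)
      _ ≤ (1 + Real.log B) * Real.log X := by nlinarith
  have h6 : Real.log (Real.log Y) ≤ Real.log (1 + Real.log B) + Real.log (Real.log X) := by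
    calc Real.log (Real.log Y) ≤ Real.log ((1 + Real.log B) * Real.log X) :=
          Real.log_le_log (by linarith) h5
      _ = _ := Real.log_mul (by linarith) (by linarith)
  unfold QQ
  rw [← mul_pow]
  apply pow_le_pow_left₀ (by linarith)
  nlinarith

/-- the bound for the optimal weighted `L_p` star discrepancy, for even exponents up to `log m` -/
theorem coreH (d : ℕ) (hd : 3 ≤ d) : ∃ A : ℕ, ∃ c : ℝ, 0 < c ∧ ∀ m : ℕ, 3 ≤ m →
    ∀ N : ℕ, (N : ℝ) ≤ Real.log m →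
    ∀ (lam : Fin m → ℝ) (ξ : Fin m → Fin d → ℝ), (∀ μ, ξ μ ∈ Set.Icc (0 : Fin d → ℝ) 1) →
      ENNReal.ofReal (c * Real.sqrt N * (Real.log m) ^ (((d : ℝ) - 1) / 2) / (m * QQ A m)) ≤
        eLpNorm (locD lam ξ) ((2 * N + 2 : ℕ) : ENNReal)
          (volume.restrict (Set.Icc (0 : Fin d → ℝ) 1)) := by
  obtain ⟨c, hc, A, H⟩ := Pool.Agent.NH99.AL.all_FINL d hd
  refine ⟨A, c, hc, ?_⟩
  intro m hm N hN lam ξ hξ
  have h1 := H m hm ((2 * N + 2 : ℕ) : ENNReal) (by
    have : (1 : ℕ) ≤ 2 * N + 2 := by omega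
    exact_mod_cast this) lam ξ hξ
  refine le_trans ?_ h1
  have hm3 : (3 : ℝ) ≤ m := by exact_mod_cast hm
  have hlog : 1 ≤ Real.log m := by
    rw [Real.le_log_iff_exp_le (by linarith)]
    have h1 : Real.exp 1 < 3 := lt_trans Real.exp_one_lt_d9 (by norm_num)
    linarith
  have hll : 0 ≤ Real.log (Real.log m) := Real.log_nonneg hlog
  have hQ : 0 < QQ A m := by unfold QQ; positivity
  have hmin : ENNReal.ofReal (Real.sqrt N) ≤ min (((2 * N + 2 : ℕ) : ENNReal) ^ (1 / 2 : ℝ))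
      (ENNReal.ofReal ((Real.log m) ^ (1 / 2 : ℝ))) := by
    apply le_min
    · have h2 : ((2 * N + 2 : ℕ) : ENNReal) = ENNReal.ofReal ((2 * N + 2 : ℕ) : ℝ) :=
        (ENNReal.ofReal_natCast _).symm
      rw [h2, ENNReal.ofReal_rpow_of_nonneg (by positivity) (by norm_num), ← Real.sqrt_eq_rpow]
      apply ENNReal.ofReal_le_ofReal
      apply Real.sqrt_le_sqrt
      push_cast
      have : (0 : ℝ) ≤ N := Nat.cast_nonneg N
      linarith
    · rw [← Real.sqrt_eq_rpow]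
      exact ENNReal.ofReal_le_ofReal (Real.sqrt_le_sqrt hN)
  calc ENNReal.ofReal (c * Real.sqrt N * (Real.log m) ^ (((d : ℝ) - 1) / 2) / (m * QQ A m))
      = ENNReal.ofReal (c * (Real.log m) ^ (((d : ℝ) - 1) / 2) / (m * QQ A m)) *
          ENNReal.ofReal (Real.sqrt N) := by
        rw [← ENNReal.ofReal_mul (by positivity)]
        congr 1
        ring
    _ ≤ _ := mul_le_mul' le_rfl hmin

/-- the moments of the discrepancy of the boxes with the lower corner `u` -/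
theorem core_boxH (d : ℕ) (hd : 3 ≤ d) : ∃ A : ℕ, ∃ c : ℝ, 0 < c ∧ ∀ m : ℕ, 3 ≤ m →
    ∀ N : ℕ, (N : ℝ) ≤ Real.log m → ∀ (M : ℝ) (s : Fin d → ℝ), (∀ i, 0 < s i) →
      0 < M * ∏ i, s i →
      ∀ (ι : Type) (T : Finset ι) (w : ι → ℝ) (P : ι → Fin d → ℝ) (u : Fin d → ℝ),
        (bxP T P u s).card ≤ m →
        ENNReal.ofReal ((M * (∏ i, s i) * (c * Real.sqrt N * (Real.log m) ^ (((d : ℝ) - 1) / 2) /
          (m * QQ A m))) ^ (2 * N + 2)) ≤ ∫⁻ y in Set.Icc (0 : Fin d → ℝ) 1,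
            ENNReal.ofReal (|LL T w P M u (fun i => s i * y i)| ^ (2 * N + 2)) := by
  classical
  obtain ⟨A, c, hc, H⟩ := coreH d hd
  refine ⟨A, c, hc, ?_⟩
  intro m hm N hN M s hs hX ι T w P u hcard
  set X : ℝ := M * ∏ i, s i with hXdef
  have hQ : ∀ j ∈ bxP T P u s, ∀ i, 0 ≤ (P j i - u i) / s i ∧ (P j i - u i) / s i ≤ 1 := by
    intro j hj i
    obtain ⟨-, h1, h2⟩ := mem_bxP.1 hj
    have h3 := hs i
    constructor
    · apply div_nonneg _ h3.le
      linarith [h1 i]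
    · rw [div_le_one h3]
      linarith [h2 i]
  obtain ⟨lam, ξ, hξ, hd1⟩ := pad (bxP T P u s) m hcard w (fun j i => (P j i - u i) / s i) hQ X hX
  have hm3 : (3 : ℝ) ≤ m := by exact_mod_cast hm
  have hlog : 1 ≤ Real.log m := by
    rw [Real.le_log_iff_exp_le (by linarith)]
    have h1 : Real.exp 1 < 3 := lt_trans Real.exp_one_lt_d9 (by norm_num)
    linarith
  have hll : 0 ≤ Real.log (Real.log m) := Real.log_nonneg hlog
  have hQ0 : 0 < QQ A m := by unfold QQ; positivity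
  have hC : 0 ≤ c * Real.sqrt N * (Real.log m) ^ (((d : ℝ) - 1) / 2) / (m * QQ A m) := by
    positivity
  have h1 := pow_le_moment lam ξ (2 * N + 2) (by omega) _ hC (H m hm N hN lam ξ hξ)
  rw [mul_pow, ENNReal.ofReal_mul (by positivity)]
  refine (mul_le_mul_right h1 _).trans (le_of_eq ?_)
  rw [← lintegral_const_mul]
  · apply setLIntegral_congr_fun measurableSet_Icc
    intro y hy
    simp only
    rw [← disc_bxP T w P M u s hs y hy.2, ← hXdef, hd1, mul_pow X,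
      ENNReal.ofReal_mul (pow_nonneg hX.le _)]
  · exact ((measurable_locD lam ξ).abs.pow_const _).ennreal_ofReal

/-- the moments of the discrepancy of the boxes with the lower corner `u`, weighted points -/
theorem wqH (d : ℕ) (hd : 3 ≤ d) : ∃ A : ℕ, ∀ K : ℝ, ∃ c : ℝ, 0 < c ∧ ∀ X : ℝ, 16 ≤ X →
    ∀ N : ℕ, (N : ℝ) ≤ Real.log X → ∀ (M : ℝ) (s : Fin d → ℝ), (∀ i, 0 < s i) →
      M * ∏ i, s i = X →
      ∀ (ι : Type) (T : Finset ι) (w : ι → ℝ) (P : ι → Fin d → ℝ) (u : Fin d → ℝ),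
        ((bxP T P u s).card : ℝ) ≤ K * X →
        ENNReal.ofReal ((c * Real.sqrt N * (Real.log X) ^ (((d : ℝ) - 1) / 2) / QQ A X) ^
          (2 * N + 2)) ≤
          ∫⁻ y in Set.Icc (0 : Fin d → ℝ) 1,
            ENNReal.ofReal (|LL T w P M u (fun i => s i * y i)| ^ (2 * N + 2)) := by
  classical
  obtain ⟨A, c, hc, H⟩ := core_boxH d hd
  refine ⟨A, fun K => ?_⟩
  set K₁ : ℝ := max K 3 with hK1
  have hK13 : 3 ≤ K₁ := le_max_right _ _
  obtain ⟨C, hC1, hcomp⟩ := QQ_comp A (2 * K₁) (by linarith)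
  have hα : 0 ≤ ((d : ℝ) - 1) / 2 := by
    have : (3 : ℝ) ≤ d := by exact_mod_cast hd
    linarith
  refine ⟨c / (2 * K₁ * C), by positivity, fun X hX => ?_⟩
  set m : ℕ := ⌈K₁ * X⌉₊ with hm
  have hX0 : 0 < X := by linarith
  have hmge : K₁ * X ≤ m := Nat.le_ceil _
  have hmle : (m : ℝ) ≤ 2 * K₁ * X := by
    have := Nat.ceil_lt_add_one (show 0 ≤ K₁ * X by positivity)
    rw [← hm] at this
    nlinarith
  have hXm : X ≤ m := by
    refine le_trans ?_ hmge
    nlinarith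
  have hmm : 3 ≤ m := by
    have : (3 : ℝ) ≤ m := by linarith
    exact_mod_cast this
  intro N hN M s hs hMs ι T w P u hcard
  have hcard' : (bxP T P u s).card ≤ m := by
    have : ((bxP T P u s).card : ℝ) ≤ m := by
      refine hcard.trans (le_trans ?_ hmge)
      exact mul_le_mul_of_nonneg_right (le_max_left _ _) hX0.le
    exact_mod_cast this
  have hlogle : Real.log X ≤ Real.log m := Real.log_le_log hX0 hXm
  refine le_trans ?_ (H m hmm N (hN.trans hlogle) M s hs (by rw [hMs]; exact hX0) ι T w P u hcard')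
  apply ENNReal.ofReal_le_ofReal
  obtain ⟨h1, h2⟩ := log_facts hX
  have hL : (Real.log X) ^ (((d : ℝ) - 1) / 2) ≤ (Real.log m) ^ (((d : ℝ) - 1) / 2) :=
    Real.rpow_le_rpow (by linarith) hlogle hα
  have hL0 : 0 ≤ (Real.log X) ^ (((d : ℝ) - 1) / 2) := Real.rpow_nonneg (by linarith) _
  have hQX : 0 < QQ A X := lt_of_lt_of_le one_pos (QQ_ge_one A hX)
  have hQm : 0 < QQ A m := lt_of_lt_of_le one_pos (QQ_ge_one A (hX.trans hXm))
  have hQ2 := hcomp X m hX hXm hmle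
  apply pow_le_pow_left₀ (by positivity)
  rw [hMs]
  have hm0 : (0 : ℝ) < m := by linarith
  rw [div_le_iff₀ hQX]
  have h4 : 0 ≤ c * Real.sqrt N * (Real.log m) ^ (((d : ℝ) - 1) / 2) :=
    mul_nonneg (by positivity) (hL0.trans hL)
  have h5 : 1 / (2 * K₁ * C) ≤ X / (m * QQ A m) * QQ A X := by
    rw [div_mul_eq_mul_div, div_le_div_iff₀ (by positivity) (by positivity), one_mul]
    calc (m : ℝ) * QQ A m ≤ (2 * K₁ * X) * (C * QQ A X) := by gcongr
      _ = X * QQ A X * (2 * K₁ * C) := by ring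
  calc c / (2 * K₁ * C) * Real.sqrt N * (Real.log X) ^ (((d : ℝ) - 1) / 2)
      ≤ c / (2 * K₁ * C) * Real.sqrt N * (Real.log m) ^ (((d : ℝ) - 1) / 2) := by gcongr
    _ = 1 / (2 * K₁ * C) * (c * Real.sqrt N * (Real.log m) ^ (((d : ℝ) - 1) / 2)) := by ring
    _ ≤ (X / (m * QQ A m) * QQ A X) * (c * Real.sqrt N * (Real.log m) ^ (((d : ℝ) - 1) / 2)) :=
        mul_le_mul_of_nonneg_right h5 h4
    _ = _ := by ring

end Pool.Agent.H553.BX
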