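import Pool.Agent.H553.BX.One

set_option autoImplicit false

/-!
# The exponent `d / 2` in every box, modulo functions of fewer variables
-/

namespace Pool.Agent.H553.BX

open Finset MeasureTheory Pool.Agent.H736R2.Lone
open Pool.Agent.Q184.DL
open Pool.Agent.Q184.DP

variable {d : ℕ}

/-- the combination of the two bounds -/
theorem combineH (d : ℕ) (hd : 3 ≤ d) (A : ℕ) (κ c₁ c₂ : ℝ) (hκ : 0 < κ) (hc₁ : 0 < c₁)
    (hc₂ : 0 < c₂) :
    ∃ c : ℝ, 0 < c ∧ ∀ X : ℝ, 16 * 4 ^ d ≤ X → ∀ (a b : Fin d → ℝ), (∀ i, a i < b i) →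
      ∀ F : (Fin d → ℝ) → ℝ, Measurable F →
      ENNReal.ofReal κ * volume (Set.Icc a b) ≤ volume {x | x ∈ Set.Icc a b ∧
        c₁ * (Real.log X) ^ (((d : ℝ) - 1) / 2) ≤ |F x|} →
      (∀ N : ℕ, (N : ℝ) ≤ Real.log (X / 4 ^ d) →
        ENNReal.ofReal (((c₂ * Real.sqrt N * (Real.log (X / 2 ^ d)) ^ (((d : ℝ) - 1) / 2) /
          QQ A (X / 2 ^ d)) / 8 ^ d) ^ (2 * N + 2)) * volume (Set.Icc a b) ≤
          ∫⁻ x in Set.Icc a b, ENNReal.ofReal (|F x| ^ (2 * N + 2))) →
      ∀ p : ENNReal, 1 ≤ p →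
        ENNReal.ofReal (c * (Real.log X) ^ (((d : ℝ) - 1) / 2) / QQ A X) *
          min (p ^ (1 / 2 : ℝ)) (ENNReal.ofReal ((Real.log X) ^ (1 / 2 : ℝ))) ≤
            eLpNorm F p (meanM a b) := by
  set α : ℝ := ((d : ℝ) - 1) / 2 with hα
  have hd3 : (3 : ℝ) ≤ d := by exact_mod_cast hd
  have hα0 : 0 ≤ α := by
    rw [hα]
    linarith
  set e : ℝ := (1 / (1 + 2 * (d : ℝ))) ^ α with he
  have he0 : 0 < e := by positivity
  set K : ℝ := 2 * d + 2 with hK
  have hK0 : 0 < K := by positivity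
  have hK8 : 8 ≤ K := by rw [hK]; linarith
  have h1d : (1 : ℝ) ≤ 2 ^ d := one_le_pow₀ (by norm_num)
  have h1d4 : (1 : ℝ) ≤ 4 ^ d := one_le_pow₀ (by norm_num)
  have e4 : (4 : ℝ) ^ d = 2 ^ d * 2 ^ d := by
    rw [← mul_pow]
    norm_num
  have hlog4 : Real.log (4 ^ d) ≤ 2 * d := by
    rw [Real.log_pow]
    have h4 : Real.log 4 = 2 * Real.log 2 := by
      rw [show (4 : ℝ) = 2 ^ 2 by norm_num, Real.log_pow]
      norm_num
    rw [h4]
    have := Real.log_two_lt_d9
    nlinarith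
  set W : ℝ := 45 + (1001 + 2 * d) with hW
  have hW0 : 0 < W := by positivity
  refine ⟨min (κ * c₁ / W) (c₂ * e / 8 ^ d / K), by positivity, ?_⟩
  set c : ℝ := min (κ * c₁ / W) (c₂ * e / 8 ^ d / K) with hc
  have hc0 : 0 < c := by positivity
  have hb1 : c ≤ κ * c₁ / W := min_le_left _ _
  have hb2 : c * K ≤ c₂ * e / 8 ^ d := by
    have : c ≤ c₂ * e / 8 ^ d / K := min_le_right _ _
    rwa [le_div_iff₀ hK0] at this
  intro X hX a b hab F hF hlarge hmom p hp
  have hX2 : 16 * 2 ^ d ≤ X := by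
    refine le_trans ?_ hX
    rw [e4]
    nlinarith
  have hX16 : 16 ≤ X := by nlinarith
  have hX0 : 0 < X := by linarith
  obtain ⟨hl1, hl2⟩ := log_facts hX16
  have hL0 : 0 ≤ (Real.log X) ^ α := Real.rpow_nonneg (by linarith) _
  have hQX1 := QQ_ge_one A hX16
  have hQX : 0 < QQ A X := by linarith
  -- the case where the minimum is bounded
  have small : min (p ^ (1 / 2 : ℝ)) (ENNReal.ofReal ((Real.log X) ^ (1 / 2 : ℝ))) ≤
      ENNReal.ofReal W →
      ENNReal.ofReal (c * (Real.log X) ^ α / QQ A X) *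
        min (p ^ (1 / 2 : ℝ)) (ENNReal.ofReal ((Real.log X) ^ (1 / 2 : ℝ))) ≤
          eLpNorm F p (meanM a b) := by
    intro hmin
    have h1 := norm_ge_of_large a b hab F hF κ (c₁ * (Real.log X) ^ α) hκ.le (by positivity)
      hlarge p hp
    refine le_trans ?_ h1
    calc ENNReal.ofReal (c * (Real.log X) ^ α / QQ A X) *
          min (p ^ (1 / 2 : ℝ)) (ENNReal.ofReal ((Real.log X) ^ (1 / 2 : ℝ)))
        ≤ ENNReal.ofReal (c * (Real.log X) ^ α / QQ A X) * ENNReal.ofReal W := by gcongr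
      _ = ENNReal.ofReal (c * (Real.log X) ^ α / QQ A X * W) :=
          (ENNReal.ofReal_mul (by positivity)).symm
      _ ≤ ENNReal.ofReal (κ * (c₁ * (Real.log X) ^ α)) := by
          apply ENNReal.ofReal_le_ofReal
          calc c * (Real.log X) ^ α / QQ A X * W ≤ c * (Real.log X) ^ α * W := by
                apply mul_le_mul_of_nonneg_right _ hW0.le
                exact div_le_self (by positivity) hQX1
            _ ≤ κ * c₁ / W * (Real.log X) ^ α * W := by gcongr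
            _ = _ := by field_simp
  by_cases hp2 : p < 2002
  · apply small
    refine (min_le_left _ _).trans ?_
    calc p ^ (1 / 2 : ℝ) ≤ (ENNReal.ofReal 2025) ^ (1 / 2 : ℝ) := by
          apply ENNReal.rpow_le_rpow _ (by norm_num)
          refine hp2.le.trans ?_
          rw [show (2002 : ENNReal) = ENNReal.ofReal 2002 by norm_num]
          exact ENNReal.ofReal_le_ofReal (by norm_num)
      _ = ENNReal.ofReal 45 := by
          rw [ENNReal.ofReal_rpow_of_nonneg (by norm_num) (by norm_num), ← Real.sqrt_eq_rpow,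
            show (2025 : ℝ) = 45 ^ 2 by norm_num, Real.sqrt_sq (by norm_num)]
      _ ≤ ENNReal.ofReal W := by
          apply ENNReal.ofReal_le_ofReal
          rw [hW]
          have : (0 : ℝ) ≤ d := by linarith
          linarith
  rw [not_lt] at hp2
  have hlogX : Real.log X = Real.log (X / 4 ^ d) + Real.log (4 ^ d) := by
    rw [Real.log_div hX0.ne' (by positivity)]
    ring
  obtain ⟨Mx, hMxe⟩ : ∃ Mx : ℕ, Mx = ⌊Real.log (X / 4 ^ d)⌋₊ := ⟨_, rfl⟩
  have hX4 : 1 ≤ X / 4 ^ d := by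
    rw [le_div_iff₀ (by positivity)]
    linarith
  have hlog40 : 0 ≤ Real.log (X / 4 ^ d) := Real.log_nonneg hX4
  have hMxle : (Mx : ℝ) ≤ Real.log (X / 4 ^ d) := by rw [hMxe]; exact Nat.floor_le hlog40
  have hMxlt : Real.log (X / 4 ^ d) < Mx + 1 := by rw [hMxe]; exact Nat.lt_floor_add_one _
  by_cases hMx : Mx < 1000
  · apply small
    refine (min_le_right _ _).trans (ENNReal.ofReal_le_ofReal ?_)
    have h1 : (Mx : ℝ) + 1 ≤ 1000 := by
      have : Mx + 1 ≤ 1000 := hMx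
      exact_mod_cast this
    have h2 : Real.log X ≤ 1001 + 2 * d := by linarith
    calc (Real.log X) ^ (1 / 2 : ℝ) ≤ (Real.log X) ^ (1 : ℝ) :=
          Real.rpow_le_rpow_of_exponent_le (by linarith) (by norm_num)
      _ = Real.log X := Real.rpow_one _
      _ ≤ W := by rw [hW]; linarith
  rw [not_lt] at hMx
  obtain ⟨N, hN1, hN2, hN3, hN4⟩ := choose_exp hMx hp2
  have hprob := prob_mean a b hab
  have hs : 0 ≤ Real.sqrt N := Real.sqrt_nonneg _
  have hN1R : (1000 : ℝ) ≤ N := by exact_mod_cast hN1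
  have hmin : min (p ^ (1 / 2 : ℝ)) (ENNReal.ofReal ((Real.log X) ^ (1 / 2 : ℝ))) ≤
      ENNReal.ofReal (K * Real.sqrt N) := by
    rcases hN4 with h | h
    · refine (min_le_right _ _).trans (ENNReal.ofReal_le_ofReal ?_)
      have h1 : Real.log X ≤ K * N := by
        rw [h, hK]
        have h2 : (1000 : ℝ) ≤ Mx := by exact_mod_cast hMx
        nlinarith
      rw [← Real.sqrt_eq_rpow]
      calc Real.sqrt (Real.log X) ≤ Real.sqrt (K * N) := Real.sqrt_le_sqrt h1
        _ = Real.sqrt K * Real.sqrt N := Real.sqrt_mul hK0.le _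
        _ ≤ K * Real.sqrt N := by
            apply mul_le_mul_of_nonneg_right _ hs
            rw [Real.sqrt_le_left hK0.le]
            nlinarith
    · refine (min_le_left _ _).trans (h.trans (ENNReal.ofReal_le_ofReal ?_))
      apply mul_le_mul_of_nonneg_right _ hs
      linarith
  have h5 := log_comp d α hα0 X (2 ^ d) h1d (by nlinarith) (by
    rw [Real.log_pow]
    have : 0 ≤ Real.log 2 := Real.log_nonneg (by norm_num)
    have hd0 : (0 : ℝ) ≤ d := Nat.cast_nonneg d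
    nlinarith)
  have hLX : 0 ≤ (Real.log (X / 2 ^ d)) ^ α := le_trans (by positivity) h5
  have hY16 : 16 ≤ X / 2 ^ d := by
    rw [le_div_iff₀ (by positivity)]
    exact hX2
  have hYX : X / 2 ^ d ≤ X := by
    rw [div_le_iff₀ (by positivity)]
    nlinarith
  have hQY : 0 < QQ A (X / 2 ^ d) := lt_of_lt_of_le one_pos (QQ_ge_one A hY16)
  have hQYX : QQ A (X / 2 ^ d) ≤ QQ A X := QQ_mono A hY16 hYX
  calc ENNReal.ofReal (c * (Real.log X) ^ α / QQ A X) *
        min (p ^ (1 / 2 : ℝ)) (ENNReal.ofReal ((Real.log X) ^ (1 / 2 : ℝ)))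
      ≤ ENNReal.ofReal (c * (Real.log X) ^ α / QQ A X) * ENNReal.ofReal (K * Real.sqrt N) := by
        gcongr
    _ = ENNReal.ofReal (c * (Real.log X) ^ α / QQ A X * (K * Real.sqrt N)) :=
        (ENNReal.ofReal_mul (by positivity)).symm
    _ ≤ ENNReal.ofReal (c₂ * Real.sqrt N * (Real.log (X / 2 ^ d)) ^ α / QQ A (X / 2 ^ d) / 8 ^ d) := by
        apply ENNReal.ofReal_le_ofReal
        calc c * (Real.log X) ^ α / QQ A X * (K * Real.sqrt N)
            = (c * K) * Real.sqrt N * (Real.log X) ^ α / QQ A X := by ring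
          _ ≤ c₂ * e / 8 ^ d * Real.sqrt N * (Real.log X) ^ α / QQ A X := by gcongr
          _ = c₂ * Real.sqrt N * (e * (Real.log X) ^ α) / QQ A X / 8 ^ d := by ring
          _ ≤ c₂ * Real.sqrt N * (Real.log (X / 2 ^ d)) ^ α / QQ A X / 8 ^ d := by gcongr
          _ ≤ _ := by
              apply div_le_div_of_nonneg_right _ (by positivity)
              exact div_le_div_of_nonneg_left (by positivity) hQY hQYX
    _ ≤ eLpNorm F ((2 * N + 2 : ℕ) : ENNReal) (meanM a b) :=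
        norm_ge_of_moment a b hab F (2 * N + 2) (by omega) _ (by positivity) (hmom N (by
          have : (N : ℝ) ≤ Mx := by exact_mod_cast hN2
          linarith))
    _ ≤ eLpNorm F p (meanM a b) :=
        eLpNorm_le_eLpNorm_of_exponent_le hN3 hF.aestronglyMeasurable

/-- weights one -/
theorem finalH_one (d : ℕ) (hd : 3 ≤ d) : ∃ A : ℕ, ∃ c : ℝ, 0 < c ∧
    ∀ (M : ℝ) (a b : Fin d → ℝ), (∀ i, a i < b i) → 16 * 4 ^ d ≤ M * ∏ i, (b i - a i) →
      ∀ (ι : Type) (T : Finset ι) (P : ι → Fin d → ℝ) (g : Fin d → (Fin d → ℝ) → ℝ),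
        (∀ i, Measurable (g i)) → (∀ i x t, g i (Function.update x i t) = g i x) →
        ∀ p : ENNReal, 1 ≤ p →
          ENNReal.ofReal (c * (Real.log (M * ∏ i, (b i - a i))) ^ (((d : ℝ) - 1) / 2) /
            QQ A (M * ∏ i, (b i - a i))) *
            min (p ^ (1 / 2 : ℝ)) (ENNReal.ofReal
              ((Real.log (M * ∏ i, (b i - a i))) ^ (1 / 2 : ℝ))) ≤
              eLpNorm (FF T (fun _ => 1) P M g) p (meanM a b) := by
  obtain ⟨κ, hκ, c₁, hc₁, H1⟩ := final_one d (by omega)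
  obtain ⟨A, c₂, hc₂, H2⟩ := oneqH d hd
  obtain ⟨c, hc, H⟩ := combineH d hd A κ c₁ c₂ hκ hc₁ hc₂
  refine ⟨A, c, hc, ?_⟩
  intro M a b hab hM ι T P g hg hgi p hp
  set X : ℝ := M * ∏ i, (b i - a i) with hX
  have e4 : (4 : ℝ) ^ d = 2 ^ d * 2 ^ d := by
    rw [← mul_pow]
    norm_num
  have h1d : (1 : ℝ) ≤ 2 ^ d := one_le_pow₀ (by norm_num)
  have hprod : M * ∏ i, (b i - a i) / 2 = X / 2 ^ d := by
    rw [Finset.prod_div_distrib, Finset.prod_const, Finset.card_univ, Fintype.card_fin, hX]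
    ring
  have hM2 : 16 * 2 ^ d ≤ X / 2 ^ d := by
    rw [le_div_iff₀ (by positivity)]
    calc (16 : ℝ) * 2 ^ d * 2 ^ d = 16 * 4 ^ d := by rw [e4]; ring
      _ ≤ X := hM
  have hdiv : X / 2 ^ d / 2 ^ d = X / 4 ^ d := by rw [div_div, e4]
  apply H X hM a b hab _ (measurable_FF T _ P M g hg) _ _ p hp
  · apply H1 M a b hab (by nlinarith) ι T P g hg hgi
  · intro N hN
    have hlog : 0 ≤ Real.log (X / 2 ^ d) := Real.log_nonneg (by nlinarith)
    have hQ : 0 < QQ A (X / 2 ^ d) :=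
      lt_of_lt_of_le one_pos (QQ_ge_one A (by nlinarith))
    apply transferq T (fun _ => 1) P M g hg hgi a b hab (2 * N + 2) (by omega) _ (by positivity)
    intro u _
    exact H2 (X / 2 ^ d) hM2 N (by rw [hdiv]; exact hN) M (fun i => (b i - a i) / 2)
      (fun i => half_pos (sub_pos.2 (hab i))) hprod ι T P u

/-- arbitrary weights -/
theorem finalH_w (d : ℕ) (hd : 3 ≤ d) : ∃ A : ℕ, ∀ K : ℝ, ∃ c : ℝ, 0 < c ∧
    ∀ (M : ℝ) (a b : Fin d → ℝ), (∀ i, a i < b i) → 16 * 4 ^ d ≤ M * ∏ i, (b i - a i) →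
      ∀ (ι : Type) (T : Finset ι) (w : ι → ℝ) (P : ι → Fin d → ℝ) (g : Fin d → (Fin d → ℝ) → ℝ),
        ((bxP T P a (fun i => b i - a i)).card : ℝ) ≤ K * (M * ∏ i, (b i - a i)) →
        (∀ i, Measurable (g i)) → (∀ i x t, g i (Function.update x i t) = g i x) →
        ∀ p : ENNReal, 1 ≤ p →
          ENNReal.ofReal (c * (Real.log (M * ∏ i, (b i - a i))) ^ (((d : ℝ) - 1) / 2) /
            QQ A (M * ∏ i, (b i - a i))) *
            min (p ^ (1 / 2 : ℝ)) (ENNReal.ofReal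
              ((Real.log (M * ∏ i, (b i - a i))) ^ (1 / 2 : ℝ))) ≤
              eLpNorm (FF T w P M g) p (meanM a b) := by
  obtain ⟨κ, hκ, H1⟩ := final_weighted d (by omega)
  obtain ⟨A, H2⟩ := wqH d hd
  refine ⟨A, fun K => ?_⟩
  obtain ⟨c₁, hc₁, H1⟩ := H1 K
  obtain ⟨c₂, hc₂, H2⟩ := H2 (K * 2 ^ d)
  obtain ⟨c, hc, H⟩ := combineH d hd A κ c₁ c₂ hκ hc₁ hc₂
  refine ⟨c, hc, ?_⟩
  intro M a b hab hM ι T w P g hT hg hgi p hp
  set X : ℝ := M * ∏ i, (b i - a i) with hX
  have e4 : (4 : ℝ) ^ d = 2 ^ d * 2 ^ d := by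
    rw [← mul_pow]
    norm_num
  have h1d : (1 : ℝ) ≤ 2 ^ d := one_le_pow₀ (by norm_num)
  have hprod : M * ∏ i, (b i - a i) / 2 = X / 2 ^ d := by
    rw [Finset.prod_div_distrib, Finset.prod_const, Finset.card_univ, Fintype.card_fin, hX]
    ring
  have hM2 : 16 * 2 ^ d ≤ X / 2 ^ d := by
    rw [le_div_iff₀ (by positivity)]
    calc (16 : ℝ) * 2 ^ d * 2 ^ d = 16 * 4 ^ d := by rw [e4]; ring
      _ ≤ X := hM
  have hdiv : X / 2 ^ d / 2 ^ d = X / 4 ^ d := by rw [div_div, e4]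
  have hX0 : 0 < X := by nlinarith
  apply H X hM a b hab _ (measurable_FF T _ P M g hg) _ _ p hp
  · apply H1 M a b hab (by nlinarith) ι T w P g hT hg hgi
  · intro N hN
    have hlog : 0 ≤ Real.log (X / 2 ^ d) := Real.log_nonneg (by nlinarith)
    have hQ : 0 < QQ A (X / 2 ^ d) :=
      lt_of_lt_of_le one_pos (QQ_ge_one A (by nlinarith))
    apply transferq T w P M g hg hgi a b hab (2 * N + 2) (by omega) _ (by positivity)
    intro u hu
    have hNle : (N : ℝ) ≤ Real.log (X / 2 ^ d) := by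
      refine hN.trans (Real.log_le_log (by positivity) ?_)
      rw [← hdiv]
      exact div_le_self (by positivity) h1d
    apply H2 (X / 2 ^ d) (by nlinarith) N hNle M (fun i => (b i - a i) / 2)
      (fun i => half_pos (sub_pos.2 (hab i))) hprod ι T w P u
    have h1 : (bxP T P u (fun i => (b i - a i) / 2)).card ≤
        (bxP T P a (fun i => b i - a i)).card := by
      apply Finset.card_le_card
      intro j hj
      obtain ⟨h1, h2, h3⟩ := mem_bxP.1 hj
      refine mem_bxP.2 ⟨h1, fun i => (hu.1 i).trans_lt (h2 i), fun i => (h3 i).trans ?_⟩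
      have := hu.2 i
      simp only [Pi.add_apply] at this
      linarith
    have h2 : ((bxP T P u (fun i => (b i - a i) / 2)).card : ℝ) ≤
        (bxP T P a (fun i => b i - a i)).card := by exact_mod_cast h1
    refine h2.trans (hT.trans (le_of_eq ?_))
    field_simp

end Pool.Agent.H553.BX
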