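import Pool.Agent.H553.BX.Core

set_option autoImplicit false

/-!
# The exponent `d / 2` in every box: weights one, no condition on the points
-/

namespace Pool.Agent.H553.BX

open Finset MeasureTheory Pool.Agent.H736R2.Lone
open Pool.Agent.Q184.DL
open Pool.Agent.Q184.DP

variable {d : ℕ}

/-- the loss factor is monotone -/
theorem QQ_mono (A : ℕ) {X Y : ℝ} (hX : 16 ≤ X) (hXY : X ≤ Y) : QQ A X ≤ QQ A Y := by
  obtain ⟨h1, h2⟩ := log_facts hX
  unfold QQ
  apply pow_le_pow_left₀ (by linarith)
  have := Real.log_le_log (by linarith) (Real.log_le_log (by linarith) hXY)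
  linarith

/-- the moments of the discrepancy of the boxes with the lower corner `u`, weights one -/
theorem oneqH (d : ℕ) (hd : 3 ≤ d) : ∃ A : ℕ, ∃ c : ℝ, 0 < c ∧ ∀ X : ℝ, 16 * 2 ^ d ≤ X →
    ∀ N : ℕ, (N : ℝ) ≤ Real.log (X / 2 ^ d) → ∀ (M : ℝ) (s : Fin d → ℝ), (∀ i, 0 < s i) →
      M * ∏ i, s i = X →
      ∀ (ι : Type) (T : Finset ι) (P : ι → Fin d → ℝ) (u : Fin d → ℝ),
        ENNReal.ofReal ((c * Real.sqrt N * (Real.log X) ^ (((d : ℝ) - 1) / 2) / QQ A X) ^
          (2 * N + 2)) ≤
          ∫⁻ y in Set.Icc (0 : Fin d → ℝ) 1,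
            ENNReal.ofReal (|LL T (fun _ => 1) P M u (fun i => s i * y i)| ^ (2 * N + 2)) := by
  classical
  obtain ⟨A, H⟩ := wqH d hd
  obtain ⟨c₁, hc₁, H⟩ := H (2 * 2 ^ d)
  refine ⟨A, ?_⟩
  set α : ℝ := ((d : ℝ) - 1) / 2 with hα
  have hd3 : (3 : ℝ) ≤ d := by exact_mod_cast hd
  have hα0 : 0 ≤ α := by
    rw [hα]
    linarith
  obtain ⟨B, hB, hlogB⟩ := log_pow_le (α + 1) (by linarith)
  have h1d : (1 : ℝ) ≤ 2 ^ d := one_le_pow₀ (by norm_num)
  set e : ℝ := (1 / (1 + 2 * (d : ℝ))) ^ α with he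
  have he0 : 0 < e := by positivity
  set c : ℝ := min (c₁ * e / 2 ^ d) (1 / (B * 2 ^ d)) with hc
  have hc0 : 0 < c := by positivity
  have hb2 : c ≤ c₁ * e / 2 ^ d := min_le_left _ _
  have hb3 : c ≤ 1 / (B * 2 ^ d) := min_le_right _ _
  refine ⟨c, hc0, fun X hX => ?_⟩
  have hY : 16 ≤ X / 2 ^ d := by
    rw [le_div_iff₀ (by positivity)]
    exact hX
  have hX16 : 16 ≤ X := by nlinarith
  have hX0 : 0 < X := by linarith
  have hYX : X / 2 ^ d ≤ X := by
    rw [div_le_iff₀ (by positivity)]
    nlinarith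
  obtain ⟨hl1, hl2⟩ := log_facts hX16
  obtain ⟨hl3, hl4⟩ := log_facts hY
  have hQX : 0 < QQ A X := lt_of_lt_of_le one_pos (QQ_ge_one A hX16)
  have hQY : 0 < QQ A (X / 2 ^ d) := lt_of_lt_of_le one_pos (QQ_ge_one A hY)
  have hQXY : QQ A (X / 2 ^ d) ≤ QQ A X := QQ_mono A hY hYX
  intro N hN M s hs hMs ι T P u
  have hL0 : 0 ≤ (Real.log X) ^ α := Real.rpow_nonneg (by linarith) _
  have hprod2 : M * ∏ i, s i / 2 = X / 2 ^ d := by
    rw [Finset.prod_div_distrib, Finset.prod_const, Finset.card_univ, Fintype.card_fin, ← hMs]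
    ring
  set G : (Fin d → ℝ) → ENNReal := fun y =>
    ENNReal.ofReal (|LL T (fun _ => 1) P M u (fun i => s i * y i)| ^ (2 * N + 2)) with hG
  by_cases hcard : ((bxP T P u (fun i => s i / 2)).card : ℝ) ≤ 2 * 2 ^ d * (X / 2 ^ d)
  · have h1 := H (X / 2 ^ d) hY N hN M (fun i => s i / 2) (fun i => half_pos (hs i)) hprod2 ι T
      (fun _ => 1) P u hcard
    have h2 : ∫⁻ y in Set.Icc (0 : Fin d → ℝ) 1,
        ENNReal.ofReal (|LL T (fun _ => 1) P M u (fun i => s i / 2 * y i)| ^ (2 * N + 2)) =
        ∫⁻ y in Set.Icc (0 : Fin d → ℝ) 1, G ((1 / 2 : ℝ) • y) := by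
      apply lintegral_congr
      intro y
      simp only [hG, Pi.smul_apply, smul_eq_mul]
      have : (fun i => s i / 2 * y i) = fun i => s i * (1 / 2 * y i) := by
        funext i
        ring
      rw [this]
    rw [h2] at h1
    have h3 := h1.trans (lint_half G)
    have h4 : ENNReal.ofReal (2 ^ d) *
        ENNReal.ofReal ((c * Real.sqrt N * (Real.log X) ^ α / QQ A X) ^ (2 * N + 2)) ≤
        ENNReal.ofReal (2 ^ d) * ∫⁻ y in Set.Icc (0 : Fin d → ℝ) 1, G y := by
      refine le_trans ?_ h3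
      rw [← ENNReal.ofReal_mul (by positivity)]
      apply ENNReal.ofReal_le_ofReal
      have h5 := log_comp d α hα0 X (2 ^ d) h1d (by nlinarith) (by
        rw [Real.log_pow]
        have : 0 ≤ Real.log 2 := Real.log_nonneg (by norm_num)
        have hd0 : (0 : ℝ) ≤ d := Nat.cast_nonneg d
        nlinarith)
      calc 2 ^ d * (c * Real.sqrt N * (Real.log X) ^ α / QQ A X) ^ (2 * N + 2)
          ≤ (2 ^ d) ^ (2 * N + 2) * (c * Real.sqrt N * (Real.log X) ^ α / QQ A X) ^ (2 * N + 2) := by
            apply mul_le_mul_of_nonneg_right _ (by positivity)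
            exact le_self_pow₀ h1d (by omega)
        _ = (2 ^ d * (c * Real.sqrt N * (Real.log X) ^ α / QQ A X)) ^ (2 * N + 2) :=
            (mul_pow _ _ _).symm
        _ ≤ _ := by
            apply pow_le_pow_left₀ (by positivity)
            calc 2 ^ d * (c * Real.sqrt N * (Real.log X) ^ α / QQ A X)
                ≤ 2 ^ d * (c₁ * e / 2 ^ d * Real.sqrt N * (Real.log X) ^ α / QQ A X) := by gcongr
              _ = c₁ * Real.sqrt N * (e * (Real.log X) ^ α) / QQ A X := by field_simp
              _ ≤ c₁ * Real.sqrt N * (Real.log (X / 2 ^ d)) ^ α / QQ A X := by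
                  apply div_le_div_of_nonneg_right _ hQX.le
                  apply mul_le_mul_of_nonneg_left h5 (by positivity)
              _ ≤ c₁ * Real.sqrt N * (Real.log (X / 2 ^ d)) ^ α / QQ A (X / 2 ^ d) := by
                  apply div_le_div_of_nonneg_left _ hQY hQXY
                  have : 0 ≤ (Real.log (X / 2 ^ d)) ^ α := Real.rpow_nonneg (by linarith) _
                  positivity
    exact (ENNReal.mul_le_mul_iff_right (ENNReal.ofReal_pos.2 (by positivity)).ne'
      ENNReal.ofReal_ne_top).1 h4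
  · push Not at hcard
    have hcard2 : 2 * X < ((bxP T P u (fun i => s i / 2)).card : ℝ) := by
      have : 2 * 2 ^ d * (X / 2 ^ d) = 2 * X := by field_simp
      linarith
    have hbig : ∀ y ∈ Set.Icc (fun _ => 1 / 2 : Fin d → ℝ) (fun _ => 1),
        X ≤ |LL T (fun _ => 1) P M u (fun i => s i * y i)| := by
      intro y hy
      refine le_trans ?_ (le_abs_self _)
      unfold LL
      have h1 : ((bxP T P u (fun i => s i / 2)).card : ℝ) ≤
          ∑ j ∈ T, (if (∀ i, u i < P j i) ∧ ∀ i, P j i ≤ u i + s i * y i then (1 : ℝ) else 0) := by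
        rw [Finset.sum_boole]
        have hsub : bxP T P u (fun i => s i / 2) ⊆
            T.filter (fun j => (∀ i, u i < P j i) ∧ ∀ i, P j i ≤ u i + s i * y i) := by
          intro j hj
          obtain ⟨h1, h2, h3⟩ := mem_bxP.1 hj
          rw [Finset.mem_filter]
          refine ⟨h1, h2, fun i => (h3 i).trans ?_⟩
          have h5 : 1 / 2 ≤ y i := hy.1 i
          have := hs i
          nlinarith
        exact_mod_cast Finset.card_le_card hsub
      have h3 : ∏ i, y i ≤ 1 := by
        apply Finset.prod_le_one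
        · intro i _
          have : 1 / 2 ≤ y i := hy.1 i
          linarith
        · intro i _
          exact hy.2 i
      have h5 : M * ∏ i, (s i * y i) ≤ X := by
        rw [Finset.prod_mul_distrib, ← mul_assoc, hMs]
        exact mul_le_of_le_one_right hX0.le h3
      linarith
    have hvol : volume (Set.Icc (fun _ => 1 / 2 : Fin d → ℝ) (fun _ => 1)) =
        ENNReal.ofReal ((1 / 2) ^ d) := by
      rw [Real.volume_Icc_pi]
      simp only [Finset.prod_const, Finset.card_univ, Fintype.card_fin]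
      rw [← ENNReal.ofReal_pow (by norm_num)]
      norm_num
    have hsqN : Real.sqrt N ≤ Real.log X := by
      have h1 : (N : ℝ) ≤ Real.log X := hN.trans (Real.log_le_log (by linarith) hYX)
      rw [Real.sqrt_le_left (by linarith)]
      nlinarith
    have hsmall : c * Real.sqrt N * (Real.log X) ^ α / QQ A X ≤ X / 2 ^ d := by
      calc c * Real.sqrt N * (Real.log X) ^ α / QQ A X
          ≤ c * Real.sqrt N * (Real.log X) ^ α :=
            div_le_self (by positivity) (QQ_ge_one A hX16)
        _ ≤ 1 / (B * 2 ^ d) * (Real.log X) * (Real.log X) ^ α := by gcongr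
        _ = 1 / (B * 2 ^ d) * ((Real.log X) ^ α * Real.log X) := by ring
        _ = 1 / (B * 2 ^ d) * (Real.log X) ^ (α + 1) := by
            rw [Real.rpow_add_one (by linarith)]
        _ ≤ 1 / (B * 2 ^ d) * (B * X) :=
            mul_le_mul_of_nonneg_left (hlogB X (by linarith)) (by positivity)
        _ = X / 2 ^ d := by field_simp
    calc ENNReal.ofReal ((c * Real.sqrt N * (Real.log X) ^ α / QQ A X) ^ (2 * N + 2))
        ≤ ENNReal.ofReal ((X / 2 ^ d) ^ (2 * N + 2)) := by
          apply ENNReal.ofReal_le_ofReal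
          apply pow_le_pow_left₀ (by positivity) hsmall
      _ ≤ ENNReal.ofReal (X ^ (2 * N + 2)) * ENNReal.ofReal ((1 / 2) ^ d) := by
          rw [← ENNReal.ofReal_mul (by positivity)]
          apply ENNReal.ofReal_le_ofReal
          rw [div_pow, div_eq_mul_one_div]
          apply mul_le_mul_of_nonneg_left _ (by positivity)
          rw [one_div_pow]
          apply one_div_le_one_div_of_le (by positivity)
          exact le_self_pow₀ h1d (by omega)
      _ = ∫⁻ _y in Set.Icc (fun _ => 1 / 2 : Fin d → ℝ) (fun _ => 1),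
            ENNReal.ofReal (X ^ (2 * N + 2)) := by
          rw [setLIntegral_const, hvol]
      _ ≤ ∫⁻ y in Set.Icc (fun _ => 1 / 2 : Fin d → ℝ) (fun _ => 1), G y := by
          apply setLIntegral_mono' measurableSet_Icc
          intro y hy
          apply ENNReal.ofReal_le_ofReal
          exact pow_le_pow_left₀ hX0.le (hbig y hy) _
      _ ≤ ∫⁻ y in Set.Icc (0 : Fin d → ℝ) 1, G y := by
          apply lintegral_mono_set
          intro y hy
          refine ⟨fun i => ?_, fun i => hy.2 i⟩
          have : 1 / 2 ≤ y i := hy.1 i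
          simp only [Pi.zero_apply]
          linarith

end Pool.Agent.H553.BX
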