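import Pool.Agent.H553.BX.Fin
import Pool.Graph.R_pool_sql_team_seeded_63374d34.N628.SW.Main

set_option autoImplicit false

/-!
# The exponent `(d + 1) / 2` for sequences, in windows of indices and boxes
-/

namespace Pool.Agent.H553.BX

open Finset MeasureTheory
open Pool.Agent.N628.EB (nu nu_prob nu_pi mu mu_prob D log_ge_one)
open Pool.Agent.N628.SW

/-- powers of the iterated logarithm are small -/
theorem QQ_small (A : ℕ) (ε : ℝ) (hε : 0 < ε) : ∃ V₀ : ℝ, 16 ≤ V₀ ∧ ∀ V : ℝ, V₀ ≤ V →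
    QQ A V ≤ ε * Real.log V := by
  have h1 := Real.isLittleO_pow_log_id_atTop (n := A)
  have h2 := h1.bound (show (0 : ℝ) < ε / 2 ^ A by positivity)
  obtain ⟨L₀, hL₀⟩ := Filter.eventually_atTop.1 h2
  refine ⟨max 16 (Real.exp (max L₀ (Real.exp 1))), le_max_left _ _, fun V hV => ?_⟩
  have hV16 : 16 ≤ V := (le_max_left _ _).trans hV
  have hVe : Real.exp (max L₀ (Real.exp 1)) ≤ V := (le_max_right _ _).trans hV
  have hL : max L₀ (Real.exp 1) ≤ Real.log V := by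
    rw [Real.le_log_iff_exp_le (by linarith)]
    exact hVe
  have hL1 : L₀ ≤ Real.log V := (le_max_left _ _).trans hL
  have hL2 : Real.exp 1 ≤ Real.log V := (le_max_right _ _).trans hL
  have hL0 : 0 < Real.log V := lt_of_lt_of_le (Real.exp_pos 1) hL2
  have hll : 1 ≤ Real.log (Real.log V) := by
    rw [Real.le_log_iff_exp_le hL0]
    exact hL2
  have h3 := hL₀ (Real.log V) hL1
  simp only [id] at h3
  rw [Real.norm_eq_abs, Real.norm_eq_abs, abs_of_nonneg (by positivity), abs_of_pos hL0] at h3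
  unfold QQ
  calc (1 + Real.log (Real.log V)) ^ A ≤ (2 * Real.log (Real.log V)) ^ A := by
        apply pow_le_pow_left₀ (by linarith)
        linarith
    _ = 2 ^ A * (Real.log (Real.log V)) ^ A := mul_pow _ _ _
    _ ≤ 2 ^ A * (ε / 2 ^ A * Real.log V) := mul_le_mul_of_nonneg_left h3 (by positivity)
    _ = ε * Real.log V := by field_simp

/-- the box theorem for the normalised discrepancy function `D` -/
theorem eboxH (d : ℕ) (hd : 3 ≤ d) : ∃ A : ℕ, ∃ c : ℝ, 0 < c ∧ ∀ T : ℕ, 1 ≤ T →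
    ∀ (P : Fin T → Fin d → ℝ) (a b : Fin d → ℝ), (∀ i, a i < b i) →
      16 * 4 ^ d ≤ (T : ℝ) * ∏ i, (b i - a i) →
      ∀ h : Fin d → (Fin d → ℝ) → ℝ, (∀ k, Measurable (h k)) →
      (∀ k x t, h k (Function.update x k t) = h k x) → ∀ p : ENNReal, 1 ≤ p →
        ENNReal.ofReal (c * (Real.log ((T : ℝ) * ∏ i, (b i - a i))) ^ (((d : ℝ) - 1) / 2) /
          QQ A ((T : ℝ) * ∏ i, (b i - a i))) *
          min (p ^ (1 / 2 : ℝ)) (ENNReal.ofReal
            ((Real.log ((T : ℝ) * ∏ i, (b i - a i))) ^ (1 / 2 : ℝ))) ≤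
          ENNReal.ofReal (T : ℝ) * eLpNorm (D (fun _ => 1 / (T : ℝ)) P h) p (mu a b) := by
  classical
  obtain ⟨A, c, hc, H⟩ := finalH_one d hd
  refine ⟨A, c, hc, ?_⟩
  intro T hT P a b hab hV h hh hi p hp
  have hT0 : (0 : ℝ) < T := by exact_mod_cast hT
  have h1 := H (T : ℝ) a b hab hV (Fin T) univ P (fun k x => -((T : ℝ) * h k x))
    (fun k => ((hh k).const_mul _).neg) (fun k x t => by rw [hi]) p hp
  refine h1.trans (le_of_eq ?_)
  have h3 : Pool.Agent.Q184.DL.FF univ (fun _ => (1 : ℝ)) P (T : ℝ)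
      (fun k x => -((T : ℝ) * h k x)) = (-(T : ℝ)) • D (fun _ => 1 / (T : ℝ)) P h := by
    funext x
    rw [Pi.smul_apply, smul_eq_mul]
    unfold Pool.Agent.Q184.DL.FF H736R2.Lone.disc D
    have h3 : ∑ j : Fin T, (1 / (T : ℝ)) * (if ∀ i, P j i ≤ x i then (1 : ℝ) else 0) =
        1 / (T : ℝ) * ∑ j : Fin T, (if ∀ i, P j i ≤ x i then (1 : ℝ) else 0) := by
      rw [Finset.mul_sum]
    rw [h3, Finset.sum_neg_distrib, ← Finset.mul_sum]
    field_simp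
    ring
  have hmu : Pool.Agent.Q184.DP.meanM a b = mu a b := by
    unfold Pool.Agent.Q184.DP.meanM mu
    rw [Pool.Agent.Q184.DP.vol_Icc a b hab]
  rw [h3, hmu, eLpNorm_const_smul]
  congr 1
  rw [← ofReal_norm, Real.norm_eq_abs, abs_neg, abs_of_pos hT0]

/-- **The mean over windows.** -/
theorem seqH (d : ℕ) (hd : 2 ≤ d) : ∃ A : ℕ, ∃ c : ℝ, 0 < c ∧ ∃ V₀ : ℝ, 16 ≤ V₀ ∧
    ∀ n₀ H : ℕ, 1 ≤ H →
    ∀ a b : Fin d → ℝ, (∀ i, a i < b i) → (∀ i, 0 ≤ a i) → (∀ i, b i ≤ 1) →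
    V₀ ≤ H * ∏ i, (b i - a i) →
    ∀ (z : ℕ → Fin d → ℝ) (f : (Fin d → ℝ) → ℝ), Measurable f →
    ∀ h : Fin d → (Fin d → ℝ) → ℕ → ℝ, (∀ k n, Measurable fun x => h k x n) →
    (∀ (k : Fin d) (x : Fin d → ℝ) (t : ℝ) (n : ℕ), h k (Function.update x k t) n = h k x n) →
    ∀ p : ENNReal, 1 ≤ p →
      ENNReal.ofReal (c * (Real.log (H * ∏ i, (b i - a i))) ^ ((d : ℝ) / 2) /
        QQ A (H * ∏ i, (b i - a i))) *
        min (p ^ (1 / 2 : ℝ)) (ENNReal.ofReal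
          ((Real.log (H * ∏ i, (b i - a i))) ^ (1 / 2 : ℝ))) ≤
      eLpNorm (F z f h) p ((mu a b).prod (wnd (Finset.Ico n₀ (n₀ + H)))) := by
  obtain ⟨A, c, hc, K⟩ := eboxH (d + 1) (by omega)
  obtain ⟨V₁, hV₁, hQs⟩ := QQ_small A (c / 2) (by positivity)
  refine ⟨A, 1 / 2 * c, by positivity, max V₁ (16 * 4 ^ (d + 1)), ?_,
    fun n₀ H hH a b hab ha hb hV z f hf h hh hi p hp => ?_⟩
  · exact hV₁.trans (le_max_left _ _)
  obtain ⟨V, hVd⟩ : ∃ V : ℝ, V = H * ∏ i, (b i - a i) := ⟨_, rfl⟩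
  rw [← hVd] at hV ⊢
  have hVa : V₁ ≤ V := (le_max_left _ _).trans hV
  have hVb : 16 * 4 ^ (d + 1) ≤ V := (le_max_right _ _).trans hV
  have hV16 : 16 ≤ V := hV₁.trans hVa
  obtain ⟨hl1, hl2⟩ := Pool.Agent.Q184.DP.log_facts hV16
  obtain ⟨T, hT⟩ : ∃ T : ℕ, T = n₀ + H := ⟨_, rfl⟩
  have hT1 : 1 ≤ T := by omega
  have hT0 : (0 : ℝ) < T := by exact_mod_cast hT1
  have hTR : (T : ℝ) = n₀ + H := by rw [hT]; push_cast; ring
  have hlow := lower n₀ H hH a b hab ha hb z f hf h hh p hp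
  rw [← hT] at hlow ⊢
  obtain ⟨a', ha'⟩ : ∃ a' : Fin (d + 1) → ℝ, a' = Fin.cons ((n₀ : ℝ) / (T : ℝ)) a := ⟨_, rfl⟩
  obtain ⟨b', hb'⟩ : ∃ b' : Fin (d + 1) → ℝ, b' = Fin.cons 1 b := ⟨_, rfl⟩
  rw [← ha', ← hb'] at hlow
  have ha0 : a' 0 = (n₀ : ℝ) / (T : ℝ) := by rw [ha', Fin.cons_zero]
  have hb0 : b' 0 = 1 := by rw [hb', Fin.cons_zero]
  have has : ∀ i : Fin d, a' i.succ = a i := fun i => by rw [ha', Fin.cons_succ]
  have hbs : ∀ i : Fin d, b' i.succ = b i := fun i => by rw [hb', Fin.cons_succ]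
  have hab' : ∀ i, a' i < b' i := by
    intro i
    refine Fin.cases ?_ (fun i => ?_) i
    · rw [ha0, hb0, div_lt_one hT0]
      exact_mod_cast (by omega : n₀ < T)
    · rw [has, hbs]; exact hab i
  have hprod : (T : ℝ) * ∏ i, (b' i - a' i) = V := by
    rw [Fin.prod_univ_succ, ha0, hb0]
    simp only [has, hbs]
    rw [hVd, ← mul_assoc]
    congr 1
    rw [mul_sub, mul_one, mul_div_cancel₀ _ hT0.ne', hTR]
    ring
  have h1 := K T hT1 (P T z) a' b' hab' (by rw [hprod]; exact hVb) (h' T f h)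
    (measurable_h' T f hf h hh) (indep_h' T f h hi) p hp
  rw [hprod] at h1
  have hexp : (((d + 1 : ℕ) : ℝ) - 1) / 2 = (d : ℝ) / 2 := by push_cast; ring
  rw [hexp] at h1
  have hpow : 0 ≤ (Real.log V) ^ ((d : ℝ) / 2) := Real.rpow_nonneg (by linarith) _
  have hQ : 0 < QQ A V := lt_of_lt_of_le one_pos (QQ_ge_one A hV16)
  have h2 := h1.trans hlow
  have h3 : (2 : ENNReal) ≤ ENNReal.ofReal (c * (Real.log V) ^ ((d : ℝ) / 2) / QQ A V) *
      min (p ^ (1 / 2 : ℝ)) (ENNReal.ofReal ((Real.log V) ^ (1 / 2 : ℝ))) := by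
    have h4 : (1 : ENNReal) ≤
        min (p ^ (1 / 2 : ℝ)) (ENNReal.ofReal ((Real.log V) ^ (1 / 2 : ℝ))) := by
      refine le_min (ENNReal.one_le_rpow hp (by norm_num)) ?_
      rw [ENNReal.one_le_ofReal]
      exact Real.one_le_rpow (by linarith) (by norm_num)
    refine le_trans ?_ (mul_le_mul' (le_refl _) h4)
    rw [mul_one, show (2 : ENNReal) = ENNReal.ofReal 2 by norm_num]
    apply ENNReal.ofReal_le_ofReal
    rw [le_div_iff₀ hQ]
    have h6 : Real.log V ≤ (Real.log V) ^ ((d : ℝ) / 2) := by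
      calc Real.log V = (Real.log V) ^ (1 : ℝ) := (Real.rpow_one _).symm
        _ ≤ (Real.log V) ^ ((d : ℝ) / 2) := by
            apply Real.rpow_le_rpow_of_exponent_le (by linarith)
            have : (2 : ℝ) ≤ d := by exact_mod_cast hd
            linarith
    calc 2 * QQ A V ≤ 2 * (c / 2 * Real.log V) :=
          mul_le_mul_of_nonneg_left (hQs V hVa) (by norm_num)
      _ = c * Real.log V := by ring
      _ ≤ c * (Real.log V) ^ ((d : ℝ) / 2) := mul_le_mul_of_nonneg_left h6 hc.le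
  have h4 : ENNReal.ofReal (c * (Real.log V) ^ ((d : ℝ) / 2) / QQ A V) *
      min (p ^ (1 / 2 : ℝ)) (ENNReal.ofReal ((Real.log V) ^ (1 / 2 : ℝ))) ≠ ⊤ := by
    refine ENNReal.mul_ne_top ENNReal.ofReal_ne_top ?_
    exact ne_top_of_le_ne_top ENNReal.ofReal_ne_top (min_le_right _ _)
  refine le_trans (le_of_eq ?_) (half_le h3 h4 h2)
  rw [← mul_assoc, ← ENNReal.ofReal_mul (by norm_num)]
  congr 2
  ring

/-- **Some term of every window.** -/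
theorem seqH_sup (d : ℕ) (hd : 2 ≤ d) : ∃ A : ℕ, ∃ c : ℝ, 0 < c ∧ ∃ V₀ : ℝ, 16 ≤ V₀ ∧
    ∀ n₀ H : ℕ, 1 ≤ H →
    ∀ a b : Fin d → ℝ, (∀ i, a i < b i) → (∀ i, 0 ≤ a i) → (∀ i, b i ≤ 1) →
    V₀ ≤ H * ∏ i, (b i - a i) →
    ∀ (z : ℕ → Fin d → ℝ) (f : (Fin d → ℝ) → ℝ), Measurable f →
    ∀ h : Fin d → (Fin d → ℝ) → ℕ → ℝ, (∀ k n, Measurable fun x => h k x n) →
    (∀ (k : Fin d) (x : Fin d → ℝ) (t : ℝ) (n : ℕ), h k (Function.update x k t) n = h k x n) →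
      (∀ p : ENNReal, 1 ≤ p →
        ENNReal.ofReal (c * (Real.log (H * ∏ i, (b i - a i))) ^ ((d : ℝ) / 2) /
          QQ A (H * ∏ i, (b i - a i))) *
          min (p ^ (1 / 2 : ℝ)) (ENNReal.ofReal
            ((Real.log (H * ∏ i, (b i - a i))) ^ (1 / 2 : ℝ))) ≤
        eLpNorm (F z f h) p ((mu a b).prod (wnd (Finset.Ico n₀ (n₀ + H))))) ∧
      ∃ n x, n₀ ≤ n ∧ n < n₀ + H ∧ x ∈ Set.Icc a b ∧
        c * (Real.log (H * ∏ i, (b i - a i))) ^ (((d : ℝ) + 1) / 2) /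
          QQ A (H * ∏ i, (b i - a i)) ≤ |F z f h (x, n)| := by
  obtain ⟨A, c, hc, V₀, hV₀, K⟩ := seqH d hd
  refine ⟨A, c / 2, by positivity, V₀, hV₀, fun n₀ H hH a b hab ha hb hV z f hf h hh hi => ?_⟩
  have hK := K n₀ H hH a b hab ha hb hV z f hf h hh hi
  obtain ⟨V, hVd⟩ : ∃ V : ℝ, V = H * ∏ i, (b i - a i) := ⟨_, rfl⟩
  rw [← hVd] at hV hK ⊢
  have hV16 : 16 ≤ V := hV₀.trans hV
  obtain ⟨hl1, hl2⟩ := Pool.Agent.Q184.DP.log_facts hV16
  have hpow : 0 < (Real.log V) ^ ((d : ℝ) / 2) := Real.rpow_pos_of_pos (by linarith) _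
  have hQ : 0 < QQ A V := lt_of_lt_of_le one_pos (QQ_ge_one A hV16)
  refine ⟨fun p hp => ?_, ?_⟩
  · refine le_trans (mul_le_mul' (ENNReal.ofReal_le_ofReal ?_) le_rfl) (hK p hp)
    apply div_le_div_of_nonneg_right _ hQ.le
    apply mul_le_mul_of_nonneg_right _ hpow.le
    linarith
  have h1 := hK ⊤ le_top
  by_contra hcon
  push Not at hcon
  have hpow2 : (Real.log V) ^ (((d : ℝ) + 1) / 2) =
      (Real.log V) ^ ((d : ℝ) / 2) * (Real.log V) ^ (1 / 2 : ℝ) := by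
    rw [← Real.rpow_add (by linarith)]
    congr 1
    ring
  have hR : 0 < (Real.log V) ^ (1 / 2 : ℝ) := Real.rpow_pos_of_pos (by linarith) _
  have hp1 := mu_prob hab
  have hp2 := wnd_prob n₀ H hH
  obtain ⟨θ, hθ⟩ : ∃ θ : ℝ, θ = c / 2 * (Real.log V) ^ (((d : ℝ) + 1) / 2) / QQ A V := ⟨_, rfl⟩
  have hθ0 : 0 < θ := by rw [hθ, hpow2]; positivity
  have h2 : ∀ᵐ v ∂((mu a b).prod (wnd (Finset.Ico n₀ (n₀ + H)))), ‖F z f h v‖ ≤ θ := by
    have e1 : ∀ᵐ x ∂(mu a b), x ∈ Set.Icc a b := by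
      unfold mu
      exact Measure.ae_smul_measure (ae_restrict_mem measurableSet_Icc) _
    have e2 : ∀ᵐ n ∂(wnd (Finset.Ico n₀ (n₀ + H))), n ∈ Finset.Ico n₀ (n₀ + H) := by
      unfold wnd
      exact Measure.ae_smul_measure (ae_restrict_mem (Finset.measurableSet _)) _
    have e3 : ∀ᵐ v ∂((mu a b).prod (wnd (Finset.Ico n₀ (n₀ + H)))), v.1 ∈ Set.Icc a b :=
      Measure.quasiMeasurePreserving_fst.ae e1
    have e4 : ∀ᵐ v ∂((mu a b).prod (wnd (Finset.Ico n₀ (n₀ + H)))),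
        v.2 ∈ Finset.Ico n₀ (n₀ + H) := Measure.quasiMeasurePreserving_snd.ae e2
    filter_upwards [e3, e4] with v hv1 hv2
    obtain ⟨hv3, hv4⟩ := Finset.mem_Ico.1 hv2
    have := hcon v.2 v.1 hv3 hv4 hv1
    rw [← hθ] at this
    exact this.le
  have h3 := eLpNorm_le_of_ae_bound (p := ⊤) h2
  rw [measure_univ, ENNReal.one_rpow, one_mul] at h3
  have h4 : (⊤ : ENNReal) ^ (1 / 2 : ℝ) = ⊤ := ENNReal.top_rpow_of_pos (by norm_num)
  rw [h4, min_eq_right le_top] at h1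
  have h5 := h1.trans h3
  rw [← ENNReal.ofReal_mul (by positivity), ENNReal.ofReal_le_ofReal_iff hθ0.le, hθ, hpow2] at h5
  have h6 : 0 < c * ((Real.log V) ^ ((d : ℝ) / 2) * (Real.log V) ^ (1 / 2 : ℝ)) / QQ A V := by
    positivity
  have h7 : c * (Real.log V) ^ ((d : ℝ) / 2) / QQ A V * (Real.log V) ^ (1 / 2 : ℝ) =
      c * ((Real.log V) ^ ((d : ℝ) / 2) * (Real.log V) ^ (1 / 2 : ℝ)) / QQ A V := by ring
  have h8 : c / 2 * ((Real.log V) ^ ((d : ℝ) / 2) * (Real.log V) ^ (1 / 2 : ℝ)) / QQ A V =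
      (c * ((Real.log V) ^ ((d : ℝ) / 2) * (Real.log V) ^ (1 / 2 : ℝ)) / QQ A V) / 2 := by ring
  rw [h7, h8] at h5
  linarith

end Pool.Agent.H553.BX
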